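import Pool.Agent.Helper96.LC.Stmts

/-! Row CNT of sheet LC (MP_91e6f2_nt): only countably many orbits have a level below `1 / (2 q)`
which is not good. -/

set_option autoImplicit false

namespace Pool.Agent.Helper96.LC

open Pool.Agent.Helper44.Lag Filter

theorem cnt_core (p q : ℕ) (hp : 0 < p) (m : ℕ) : ∀ (a b : ℕ → ℝ) (s : ℕ → ℤ),
    (∀ i < m, (p : ℝ) * a i = s i + q * a (i + 1) ∧ (p : ℝ) * b i = s i + q * b (i + 1)) →
    (p : ℝ) * b m + 1 ≤ p * a m →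
    ∃ e : ℕ → ℝ, e (m + 1) = 0 ∧
      (∀ n < m + 1, ∃ s : ℤ, (p : ℝ) * e n = s + q * e (n + 1)) ∧
      ∀ i ≤ m, b i ≤ e i ∧ e i ≤ a i := by
  have hp0 : (0 : ℝ) < p := by exact_mod_cast hp
  induction m with
  | zero =>
    intro a b s _ h
    refine ⟨fun n => if n = 0 then (⌈(p : ℝ) * b 0⌉ : ℝ) / p else 0, ?_, ?_, ?_⟩
    · simp
    · intro n hn
      have hn0 : n = 0 := by omega
      subst hn0
      refine ⟨⌈(p : ℝ) * b 0⌉, ?_⟩
      simp only [if_true, Nat.zero_add, one_ne_zero, if_false, mul_zero, add_zero]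
      field_simp
    · intro i hi
      have hi0 : i = 0 := by omega
      subst hi0
      simp only [if_true]
      have h1 := Int.le_ceil ((p : ℝ) * b 0)
      have h2 := Int.ceil_lt_add_one ((p : ℝ) * b 0)
      constructor
      · rw [le_div_iff₀ hp0]
        linarith
      · rw [div_le_iff₀ hp0]
        linarith
  | succ m ih =>
    intro a b s hs h
    obtain ⟨e, h1, h2, h3⟩ := ih (fun i => a (i + 1)) (fun i => b (i + 1)) (fun i => s (i + 1))
      (fun i hi => hs (i + 1) (by omega)) h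
    refine ⟨fun n => if n = 0 then ((s 0 : ℝ) + q * e 0) / p else e (n - 1), ?_, ?_, ?_⟩
    · simp only [Nat.add_eq_zero_iff, one_ne_zero, and_false, if_false, Nat.add_sub_cancel]
      exact h1
    · intro n hn
      rcases Nat.eq_zero_or_pos n with h0 | h0
      · subst h0
        refine ⟨s 0, ?_⟩
        simp only [if_true, Nat.zero_add, one_ne_zero, if_false, Nat.sub_self]
        field_simp
      · obtain ⟨n', rfl⟩ : ∃ n', n = n' + 1 := ⟨n - 1, by omega⟩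
        obtain ⟨s', hs'⟩ := h2 n' (by omega)
        refine ⟨s', ?_⟩
        simp only [Nat.add_eq_zero_iff, one_ne_zero, and_false, if_false, Nat.add_sub_cancel]
        exact hs'
    · intro i hi
      rcases Nat.eq_zero_or_pos i with h0 | h0
      · subst h0
        simp only [if_true]
        have h4 := hs 0 (by omega)
        have h5 := h3 0 (by omega)
        have hq0 : (0 : ℝ) ≤ q := Nat.cast_nonneg q
        simp only [Nat.zero_add] at h4 h5
        have h6 := mul_le_mul_of_nonneg_left h5.1 hq0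
        have h7 := mul_le_mul_of_nonneg_left h5.2 hq0
        constructor
        · rw [le_div_iff₀ hp0]
          linarith
        · rw [div_le_iff₀ hp0]
          linarith
      · obtain ⟨n', rfl⟩ : ∃ n', i = n' + 1 := ⟨i - 1, by omega⟩
        simp only [Nat.add_eq_zero_iff, one_ne_zero, and_false, if_false, Nat.add_sub_cancel]
        exact h3 n' (by omega)

/-- the remainders of the orbit of `ξ` -/
noncomputable def rem (p q : ℕ) (ξ : ℝ) (n : ℕ) : ℝ :=
  ξ * ((p : ℝ) / q) ^ n - round (ξ * ((p : ℝ) / q) ^ n)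

theorem rem_abs (p q : ℕ) (ξ : ℝ) (n : ℕ) : |rem p q ξ n| = nn (ξ * ((p : ℝ) / q) ^ n) := rfl

theorem rem_rec (p q : ℕ) (hq : 0 < q) (ξ : ℝ) (n : ℕ) : (p : ℝ) * rem p q ξ n =
    (((q : ℤ) * round (ξ * ((p : ℝ) / q) ^ (n + 1)) - p * round (ξ * ((p : ℝ) / q) ^ n) : ℤ) : ℝ) +
      q * rem p q ξ (n + 1) := by
  have hq0 : (q : ℝ) ≠ 0 := by
    have : 0 < (q : ℝ) := by exact_mod_cast hq
    exact this.ne'
  have h : (q : ℝ) * (ξ * ((p : ℝ) / q) ^ (n + 1)) = p * (ξ * ((p : ℝ) / q) ^ n) := by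
    rw [pow_succ]
    field_simp
  unfold rem
  push_cast
  linarith

/-- the data which determine an orbit -/
def Lab (p q : ℕ) (k : ℕ) (r : ℚ) (M : ℕ) (b : Bool) (u : ℤ) (ξ : ℝ) : Prop := ∃ t : ℝ,
  ¬ GoodAt p q t (1 / ((k : ℝ) + 1)) ∧ t + 1 / ((k : ℝ) + 1) ≤ 1 / (2 * q) ∧
  |t - r| ≤ 1 / ((k : ℝ) + 1) / 8 ∧ (∀ j, M ≤ j → |rem p q ξ j| ≤ t + 1 / ((k : ℝ) + 1) / 8) ∧
  t - 1 / ((k : ℝ) + 1) / 8 ≤ |rem p q ξ M| ∧ (b = true ↔ 0 ≤ rem p q ξ M) ∧
  round (ξ * ((p : ℝ) / q) ^ M) = u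

theorem cnt_one (p q : ℕ) (hq : 2 ≤ q) (hp : 0 < p) (k : ℕ) (r : ℚ) (M : ℕ) (b : Bool) (u : ℤ)
    (ξ ξ' : ℝ) (m : ℕ)
    (he : ∀ j, M ≤ j → j ≤ M + m →
      round (ξ * ((p : ℝ) / q) ^ j) = round (ξ' * ((p : ℝ) / q) ^ j))
    (hgt : round (ξ' * ((p : ℝ) / q) ^ (M + m + 1)) < round (ξ * ((p : ℝ) / q) ^ (M + m + 1)))
    (h : Lab p q k r M b u ξ) (h' : Lab p q k r M b u ξ') : False := by
  obtain ⟨t, t1, t2, t3, t4, t5, t6, -⟩ := h
  obtain ⟨t', -, t2', t3', t4', t5', t6', -⟩ := h'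
  obtain ⟨δ, hδ⟩ : ∃ δ : ℝ, δ = 1 / ((k : ℝ) + 1) := ⟨_, rfl⟩
  rw [← hδ] at t1 t2 t3 t4 t5 t2' t3' t4' t5'
  have hδ0 : 0 < δ := by
    rw [hδ]
    positivity
  have hq0 : (0 : ℝ) < q := by
    have : 0 < q := by omega
    exact_mod_cast this
  have hq2 : (2 : ℝ) ≤ q := by exact_mod_cast hq
  have htt : |t - t'| ≤ δ / 4 := by
    rw [abs_le] at t3 t3' ⊢
    constructor <;> linarith [t3.1, t3.2, t3'.1, t3'.2]
  rw [abs_le] at htt
  -- the digits
  obtain ⟨e, e1, e2, e3⟩ := cnt_core p q hp m (fun i => rem p q ξ (M + i))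
    (fun i => rem p q ξ' (M + i))
    (fun i => (q : ℤ) * round (ξ * ((p : ℝ) / q) ^ (M + i + 1)) -
      p * round (ξ * ((p : ℝ) / q) ^ (M + i)))
    (by
      intro i hi
      refine ⟨rem_rec p q (by omega) ξ (M + i), ?_⟩
      have h1 := rem_rec p q (by omega) ξ' (M + i)
      rw [← he (M + i) (by omega) (by omega), ← he (M + i + 1) (by omega) (by omega)] at h1
      exact h1)
    (by
      have h1 := rem_rec p q (by omega) ξ (M + m)
      have h2 := rem_rec p q (by omega) ξ' (M + m)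
      rw [← he (M + m) (by omega) le_rfl] at h2
      have h3 : ((round (ξ' * ((p : ℝ) / q) ^ (M + m + 1)) : ℤ) : ℝ) + 1 ≤
          ((round (ξ * ((p : ℝ) / q) ^ (M + m + 1)) : ℤ) : ℝ) := by exact_mod_cast hgt
      have h4 := t4 (M + m + 1) (by omega)
      have h5 := t4' (M + m + 1) (by omega)
      rw [abs_le] at h4 h5
      rw [le_div_iff₀ (by positivity)] at t2 t2'
      push_cast at h1 h2
      have h6 := mul_le_mul_of_nonneg_left h3 hq0.le
      have h7 := mul_le_mul_of_nonneg_left h4.1 hq0.le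
      have h8 := mul_le_mul_of_nonneg_left h5.2 hq0.le
      have h9 : 0 < δ * q := by positivity
      rw [h1, h2]
      nlinarith [h6, h7, h8, h9, t2, t2'])
  apply t1
  have hpos : 0 ≤ t + δ := by
    have := t4 M le_rfl
    have h0 := abs_nonneg (rem p q ξ M)
    linarith
  refine ⟨m + 1, e, e1, e2, ?_, 0, by omega, ?_⟩
  · intro n hn
    rcases Nat.lt_or_ge m n with h1 | h1
    · have h2 : n = m + 1 := by omega
      rw [h2, e1, abs_zero]
      exact hpos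
    · have h2 := e3 n h1
      have h3 := t4 (M + n) (by omega)
      have h4 := t4' (M + n) (by omega)
      rw [abs_le] at h3 h4 ⊢
      constructor
      · linarith [h2.1, h4.1, htt.1, htt.2]
      · linarith [h2.2, h3.2]
  · have h2 := e3 0 (by omega)
    simp only [Nat.add_zero] at h2
    cases b with
    | true =>
      have h3 : 0 ≤ rem p q ξ' M := t6'.1 rfl
      rw [abs_of_nonneg h3] at t5'
      refine le_trans ?_ (le_abs_self _)
      linarith [htt.1, htt.2]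
    | false =>
      have h3 : rem p q ξ M < 0 := by
        by_contra hcon
        have := t6.2 (not_lt.1 hcon)
        exact Bool.false_ne_true this
      rw [abs_of_neg h3] at t5
      refine le_trans ?_ (neg_le_abs _)
      linarith

theorem cnt_uniq (p q : ℕ) (hq : 2 ≤ q) (hpq : 4 * q ≤ p) (k : ℕ) (r : ℚ) (M : ℕ) (b : Bool)
    (u : ℤ) : {ξ : ℝ | Lab p q k r M b u ξ}.Subsingleton := by
  intro ξ h ξ' h'
  change Lab p q k r M b u ξ at h
  change Lab p q k r M b u ξ' at h'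
  by_contra hne
  have hp : 0 < p := by omega
  have hq0 : (0 : ℝ) < q := by
    have : 0 < q := by omega
    exact_mod_cast this
  have hα : (1 : ℝ) < (p : ℝ) / q := by
    rw [lt_div_iff₀ hq0]
    have : q < p := by omega
    rw [one_mul]
    exact_mod_cast this
  have hex : ∃ n, round (ξ * ((p : ℝ) / q) ^ (M + n)) ≠ round (ξ' * ((p : ℝ) / q) ^ (M + n)) := by
    by_contra hcon
    push Not at hcon
    have hd : 0 < |ξ - ξ'| := abs_pos.2 (sub_ne_zero.2 hne)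
    obtain ⟨n, hn⟩ := pow_unbounded_of_one_lt (1 / |ξ - ξ'|) hα
    have h1 : ((p : ℝ) / q) ^ n ≤ ((p : ℝ) / q) ^ (M + n) :=
      pow_le_pow_right₀ hα.le (by omega)
    have h2 := abs_sub_round (ξ * ((p : ℝ) / q) ^ (M + n))
    have h3 := abs_sub_round (ξ' * ((p : ℝ) / q) ^ (M + n))
    rw [hcon n] at h2
    have h4 : |ξ * ((p : ℝ) / q) ^ (M + n) - ξ' * ((p : ℝ) / q) ^ (M + n)| ≤ 1 := by
      rw [abs_le] at h2 h3 ⊢
      constructor <;> linarith [h2.1, h2.2, h3.1, h3.2]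
    rw [← sub_mul, abs_mul, abs_of_pos (by positivity : 0 < ((p : ℝ) / q) ^ (M + n))] at h4
    rw [div_lt_iff₀ hd] at hn
    have h5 := mul_le_mul_of_nonneg_left h1 hd.le
    linarith
  classical
  have hn := Nat.find_spec hex
  have hmin := fun j => Nat.find_min (H := hex) (m := j)
  obtain ⟨n, hn'⟩ : ∃ n, n = Nat.find hex := ⟨_, rfl⟩
  rw [← hn'] at hn
  rw [← hn'] at hmin
  have hM : round (ξ * ((p : ℝ) / q) ^ M) = round (ξ' * ((p : ℝ) / q) ^ M) := by
    obtain ⟨_, _, _, _, _, _, _, h1⟩ := h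
    obtain ⟨_, _, _, _, _, _, _, h2⟩ := h'
    rw [h1, h2]
  have hn0 : n ≠ 0 := by
    intro h0
    rw [h0] at hn
    exact hn hM
  obtain ⟨m, rfl⟩ : ∃ m, n = m + 1 := ⟨n - 1, by omega⟩
  have he : ∀ j, M ≤ j → j ≤ M + m →
      round (ξ * ((p : ℝ) / q) ^ j) = round (ξ' * ((p : ℝ) / q) ^ j) := by
    intro j h1 h2
    obtain ⟨i, rfl⟩ : ∃ i, j = M + i := ⟨j - M, by omega⟩
    have h3 := hmin i (by omega)
    exact not_not.1 h3
  rcases lt_or_gt_of_ne hn with h1 | h1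
  · exact cnt_one p q hq hp k r M b u ξ' ξ m (fun j a c => (he j a c).symm) h1 h' h
  · exact cnt_one p q hq hp k r M b u ξ ξ' m he h1 h h'

theorem st_CNT : ST_CNT := by
  intro p q hq hpq
  have hq0 : (0 : ℝ) < q := by
    have : 0 < q := by omega
    exact_mod_cast this
  have hc : (⋃ x : ℕ × ℚ × ℕ × Bool × ℤ,
      {ξ : ℝ | Lab p q x.1 x.2.1 x.2.2.1 x.2.2.2.1 x.2.2.2.2 ξ}).Countable :=
    Set.countable_iUnion fun x => (cnt_uniq p q hq hpq _ _ _ _ _).countable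
  refine (hc.image (fun ξ : ℝ =>
    limsup (fun n : ℕ => nn (ξ * ((p : ℝ) / q) ^ n)) atTop)).mono ?_
  rintro t ⟨ht, hg, ξ, hξ⟩
  refine ⟨ξ, ?_, hξ⟩
  rw [Set.mem_iUnion]
  unfold Good at hg
  push Not at hg
  obtain ⟨δ0, hδ0, hg0⟩ := hg
  obtain ⟨k, hk⟩ := exists_nat_one_div_lt (show 0 < min δ0 (1 / (2 * (q : ℝ)) - t) by
    exact lt_min hδ0 (by linarith))
  obtain ⟨δ, hδ⟩ : ∃ δ : ℝ, δ = 1 / ((k : ℝ) + 1) := ⟨_, rfl⟩
  rw [← hδ] at hk
  have hδ1 : 0 < δ := by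
    rw [hδ]
    positivity
  have hk1 : δ < δ0 := lt_of_lt_of_le hk (min_le_left _ _)
  have hk2 : δ < 1 / (2 * (q : ℝ)) - t := lt_of_lt_of_le hk (min_le_right _ _)
  have hbd : IsBoundedUnder (· ≤ ·) atTop (fun n : ℕ => nn (ξ * ((p : ℝ) / q) ^ n)) :=
    isBoundedUnder_of ⟨1 / 2, fun n => abs_sub_round _⟩
  have hcb : IsCoboundedUnder (· ≤ ·) atTop (fun n : ℕ => nn (ξ * ((p : ℝ) / q) ^ n)) :=
    isCoboundedUnder_le_of_le _ (x := 0) fun n => abs_nonneg _
  have hup : ∀ᶠ n in atTop, nn (ξ * ((p : ℝ) / q) ^ n) < t + δ / 8 :=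
    eventually_lt_of_limsup_lt (by rw [hξ]; linarith) hbd
  have hlo : ∃ᶠ n in atTop, t - δ / 8 < nn (ξ * ((p : ℝ) / q) ^ n) :=
    frequently_lt_of_lt_limsup hcb (by rw [hξ]; linarith)
  obtain ⟨N, hN⟩ := eventually_atTop.1 hup
  obtain ⟨M, hM1, hM2⟩ := (frequently_atTop.1 hlo) N
  obtain ⟨r, hr1, hr2⟩ := exists_rat_btwn (show t - δ / 8 < t + δ / 8 by linarith)
  refine ⟨(k, r, M, decide (0 ≤ rem p q ξ M), round (ξ * ((p : ℝ) / q) ^ M)), t, ?_, ?_, ?_, ?_,
    ?_, ?_, rfl⟩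
  · rw [← hδ]
    rintro ⟨l, e, h1, h2, h3, n, h4, h5⟩
    exact hg0 ⟨l, e, h1, h2, fun n hn => (h3 n hn).trans (by linarith), n, h4, by linarith⟩
  · rw [← hδ]
    linarith
  · rw [← hδ, abs_le]
    constructor <;> linarith
  · intro j hj
    rw [← hδ, rem_abs]
    exact (hN j (by simp only at hj; omega)).le
  · rw [← hδ, rem_abs]
    exact hM2.le
  · simp

end Pool.Agent.Helper96.LC
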