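import Pool.Agent.Helper96.LC.Stmts

/-! Assembly of sheet LC (MP_91e6f2_nt). -/

set_option autoImplicit false

namespace Pool.Agent.Helper96.LC

open Pool.Agent.Helper44.Lag Filter

theorem good_closed (p q : ℕ) : IsClosed {t : ℝ | Good p q t} := by
  refine isClosed_of_closure_subset fun t ht => ?_
  show Good p q t
  intro δ hδ
  obtain ⟨t', ht', hd⟩ := Metric.mem_closure_iff.1 ht (δ / 2) (by linarith)
  have ht'' : Good p q t' := ht'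
  obtain ⟨l, e, h1, h2, h3, n, h4, h5⟩ := ht'' (δ / 2) (by linarith)
  rw [Real.dist_eq, abs_lt] at hd
  exact ⟨l, e, h1, h2, fun n hn => (h3 n hn).trans (by linarith [hd.1, hd.2]), n, h4,
    by linarith [hd.1, hd.2]⟩

/-- the spectrum of `qX - p` -/
def Spec (p q : ℕ) : Set ℝ := {t : ℝ | ∃ ξ : ℝ, limsup (fun n : ℕ =>
  |ξ * ((p : ℝ) / q) ^ n - round (ξ * ((p : ℝ) / q) ^ n)|) atTop = t}

theorem fin_of (h1 : ST_RAY) (h2 : ST_LIM) (h3 : ST_CNT) (p q : ℕ) (hcop : Nat.Coprime p q)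
    (hq : 2 ≤ q) (hpq : 4 * q ≤ p) :
    (∃ K C : Set ℝ, IsClosed K ∧ C.Countable ∧
      Spec p q ∩ Set.Ici ((q : ℝ) / (p - q)) = K ∪ C) ∧
    (∀ t : ℝ, 1 / (2 * q) ≤ t → (q : ℝ) / (p - q) ≤ t → t ≤ 1 / 2 → t ∈ Spec p q) ∧
    MeasureTheory.volume (Spec p q ∩ Set.Iio (1 / (2 * (q : ℝ)))) = 0 ∧
    Spec p q ⊆ Set.Icc 0 (1 / 2) := by
  have hq0 : (0 : ℝ) < q := by
    have : 0 < q := by omega
    exact_mod_cast this
  have hq2 : (2 : ℝ) ≤ q := by exact_mod_cast hq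
  have hpq' : 4 * (q : ℝ) ≤ p := by exact_mod_cast hpq
  have hd : (0 : ℝ) < (p : ℝ) - q := by linarith
  have hle : ∀ t ∈ Spec p q, t ≤ 1 / 2 := by
    rintro t ⟨ξ, hξ⟩
    rw [← hξ]
    exact limsup_le_of_le (isCoboundedUnder_le_of_le _ (x := 0) fun n => abs_nonneg _)
      (Eventually.of_forall fun n => abs_sub_round _)
  have hge : ∀ t ∈ Spec p q, 0 ≤ t := by
    rintro t ⟨ξ, hξ⟩
    rw [← hξ]
    exact le_limsup_of_frequently_le (Frequently.of_forall fun n => abs_nonneg _)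
      (isBoundedUnder_of ⟨1 / 2, fun n => abs_sub_round _⟩)
  have hray : ∀ t : ℝ, 1 / (2 * q) ≤ t → (q : ℝ) / (p - q) ≤ t → t ≤ 1 / 2 → t ∈ Spec p q := by
    intro t ht1 ht2 ht3
    have hh1 : 1 ≤ 2 * q * t := by
      rw [div_le_iff₀ (by positivity)] at ht1
      linarith
    have hh2 : (q : ℝ) ≤ t * (p - q) := by
      rwa [div_le_iff₀ hd] at ht2
    obtain ⟨ξ, hξ⟩ := h1 p q t (by omega) hcop hpq hh1 ht3 hh2
    exact ⟨ξ, hξ⟩
  have hquart : 1 / (2 * (q : ℝ)) ≤ 1 / 4 := by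
    rw [div_le_div_iff₀ (by positivity) (by norm_num)]
    linarith
  refine ⟨⟨({t : ℝ | Good p q t} ∩ Set.Icc ((q : ℝ) / (p - q)) (1 / (2 * q))) ∪
    (Set.Icc (1 / (2 * (q : ℝ))) (1 / 2) ∩ Set.Ici ((q : ℝ) / (p - q))),
    {t : ℝ | t < 1 / (2 * q) ∧ ¬ Good p q t ∧
      ∃ ξ : ℝ, Filter.limsup (fun n : ℕ => nn (ξ * ((p : ℝ) / q) ^ n)) Filter.atTop = t} ∩
      Set.Ici ((q : ℝ) / (p - q)), ?_, ?_, ?_⟩, hray, ?_, fun t ht => ⟨hge t ht, hle t ht⟩⟩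
  · exact ((good_closed p q).inter isClosed_Icc).union (isClosed_Icc.inter isClosed_Ici)
  · exact (h3 p q hq hpq).mono Set.inter_subset_left
  · ext t
    constructor
    · rintro ⟨ht, hτ⟩
      by_cases h4 : t < 1 / (2 * q)
      · by_cases h5 : Good p q t
        · exact Or.inl (Or.inl ⟨h5, hτ, h4.le⟩)
        · exact Or.inr ⟨⟨h4, h5, ht⟩, hτ⟩
      · exact Or.inl (Or.inr ⟨⟨not_lt.1 h4, hle t ht⟩, hτ⟩)
    · rintro ((⟨h4, h5, h6⟩ | ⟨⟨h4, h5⟩, h6⟩) | ⟨⟨_, _, h4⟩, h5⟩)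
      · refine ⟨?_, h5⟩
        have h7 : (q : ℝ) ≤ t * (p - q) := by
          rwa [div_le_iff₀ hd] at h5
        obtain ⟨ξ, hξ⟩ := h2 p q t (by omega) hcop hpq h7 (h6.trans hquart) h4
        exact ⟨ξ, hξ⟩
      · exact ⟨hray t h4 h6 h5, h6⟩
      · exact ⟨h4, h5⟩
  · refine MeasureTheory.measure_mono_null ?_
      (Pool.Agent.Helper44.Lag.null_below p q (by omega) (by omega))
    rintro t ⟨⟨ξ, hξ⟩, hlt⟩
    exact ⟨hlt, ξ, hξ⟩

end Pool.Agent.Helper96.LC
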