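import Pool.Agent.Helper44.Lag.Null

/-!
# LC: the multiplicative Lagrange spectrum of `qX - p` is closed up to a countable set above
`q / (p - q)` (MP_91e6f2_nt)

`nn x = |x - round x|`. Steering with digits `|s| ≤ q` (weights: Fejér kernel times
`(1 + cos) / 2` at the level of the digits), blocks of finite digit sequences, countability of the
orbits that cannot be left.
-/

set_option autoImplicit false

namespace Pool.Agent.Helper96.LC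

open Pool.Agent.Helper44.Lag

/-- one step with a digit `|q v - p u| ≤ q` -/
def Stp (p q : ℕ) (u v : ℤ) : Prop := |(q : ℤ) * v - p * u| ≤ q

/-- (STEER) as `Helper44.Lag.steer` (`Helper44/Lag/Steer.lean`) with digits `|s| ≤ q` instead of
`2 q - 1`: replace `TT = BB ∘ AA` by `(2 BB_0 + BB_1 + BB_(-1)) / 4`, where `BB_i` has
`p u + a - b + i` in place of `p u + a - b`. On the character `ch φ` it is
`∑_j KK ((φ + j) / q) * FF q ((φ + j) / q) • ch (p (φ + j) / q)`, and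
`∑_j KK ((φ + j) / q) * FF q ((φ + j) / q) = 1 - (1 - KK φ) / q` (evaluate the operator at `u = 0`,
`p = 1`: only `s = 0, ± q` count); in `contract` replace `c'` by `c' / q`. -/
def ST_STEER : Prop := ∀ p q : ℕ, 0 < q → Nat.Coprime p q → 4 * q ≤ p → ∀ (J : ℕ) (u r : ℤ),
  ∃ v, Relation.ReflTransGen (Stp p q) u v ∧ v ≡ r [ZMOD (q : ℤ) ^ J]

/-- (RAY) from STEER: copy of `Helper44.Lag.ray` (`Helper44/Lag/Ray.lean`): only `RR_of_path`,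
`stage`, `ray` change. -/
def ST_RAY : Prop := ∀ (p q : ℕ) (t : ℝ), 0 < q → Nat.Coprime p q → 4 * q ≤ p → 1 ≤ 2 * q * t →
  t ≤ 1 / 2 → (q : ℝ) ≤ t * (p - q) →
  ∃ ξ : ℝ, Filter.limsup (fun n : ℕ => nn (ξ * ((p : ℝ) / q) ^ n)) Filter.atTop = t

/-- a finite digit sequence with remainders `e n`, all at most `t + δ`, one at least `t - δ` -/
def GoodAt (p q : ℕ) (t δ : ℝ) : Prop := ∃ (l : ℕ) (e : ℕ → ℝ), e l = 0 ∧
  (∀ n < l, ∃ s : ℤ, (p : ℝ) * e n = s + q * e (n + 1)) ∧ (∀ n ≤ l, |e n| ≤ t + δ) ∧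
  ∃ n ≤ l, t - δ ≤ |e n|

def Good (p q : ℕ) (t : ℝ) : Prop := ∀ δ : ℝ, 0 < δ → GoodAt p q t δ

/-- (PATH) induction on `Λ` with `Helper44.Lag.class_back` (digit `s` of `e 0` as `w`) -/
def ST_PATH : Prop := ∀ (p q : ℕ), 0 < q → 0 < p → Nat.Coprime p q → ∀ (Λ : ℕ) (e : ℕ → ℝ),
  e Λ = 0 → (∀ n < Λ, ∃ s : ℤ, (p : ℝ) * e n = s + q * e (n + 1)) →
  ∃ ρ : ℤ, ∀ v : ℤ, v ≡ ρ [ZMOD (q : ℤ) ^ Λ] → ∃ (v' : ℤ) (z : ℕ → ℤ), z 0 = v ∧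
    ∀ x : ℝ, ∀ n ≤ Λ, ((q : ℝ) / p) ^ (Λ - n) * x - z n = e n + ((q : ℝ) / p) ^ (Λ - n) * (x - v')

/-- (BLK) from PATH. Apply PATH to `m` zeros (remainders `(q/p)^(m-n) * e 0`), then `e`, then `m'`
zeros, with `m, m'` large: at the start `(q/p)^m * (t + δ) + (q/p)^Λ * τ ≤ τ`; deviation
`(q/p)^m' * τ ≤ δ` on `e`; after it `≤ τ ≤ t`. (`nn y ≤ |y - z|`, and `nn y = |y - z|` if
`|y - z| ≤ 1/2`.) -/
def ST_BLK : Prop := ∀ (p q : ℕ) (τ t δ : ℝ), 0 < q → Nat.Coprime p q → 4 * q ≤ p → 0 < τ → τ ≤ t →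
  t ≤ 1 / 4 → 0 < δ → δ ≤ 1 / 8 → GoodAt p q t δ →
  ∃ (Λ : ℕ) (ρ : ℤ), 1 ≤ Λ ∧ ∀ v : ℤ, v ≡ ρ [ZMOD (q : ℤ) ^ Λ] → ∃ v' : ℤ,
    ∀ x : ℝ, |x - v'| ≤ τ → |((q : ℝ) / p) ^ Λ * x - v| ≤ τ ∧
      (∀ j ≤ Λ, nn (((q : ℝ) / p) ^ j * x) ≤ t + 2 * δ) ∧
      ∃ j ≤ Λ, t - 2 * δ ≤ nn (((q : ℝ) / p) ^ j * x)

/-- (LIM) from STEER, BLK: as `Helper44.Lag.ray`, stage `i` = steering at level `τ = q / (p - q)`
(`RR_of_path` at level `τ`), then a block with `δ = 1 / (8 (i + 1))`; so all values of stage `i` are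
`≤ t + 2 δ_i`, one is `≥ t - 2 δ_i`; the nested sets are `|ξ α ^ (s i) - v i| ≤ τ`. -/
def ST_LIM : Prop := ∀ (p q : ℕ) (t : ℝ), 0 < q → Nat.Coprime p q → 4 * q ≤ p →
  (q : ℝ) ≤ t * (p - q) → t ≤ 1 / 4 → Good p q t →
  ∃ ξ : ℝ, Filter.limsup (fun n : ℕ => nn (ξ * ((p : ℝ) / q) ^ n)) Filter.atTop = t

/-- (CNT) only countably many orbits have a level `t < 1 / (2 q)` which is not good -/
def ST_CNT : Prop := ∀ (p q : ℕ), 2 ≤ q → 4 * q ≤ p →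
  {t : ℝ | t < 1 / (2 * q) ∧ ¬ Good p q t ∧
    ∃ ξ : ℝ, Filter.limsup (fun n : ℕ => nn (ξ * ((p : ℝ) / q) ^ n)) Filter.atTop = t}.Countable

/-- (FIN) -/
def ST_FIN : Prop := ∀ (p q : ℕ), Nat.Coprime p q → 2 ≤ q → 4 * q ≤ p →
  ∃ K C : Set ℝ, IsClosed K ∧ C.Countable ∧
    {t : ℝ | (q : ℝ) / (p - q) ≤ t ∧ ∃ ξ : ℝ, Filter.limsup (fun n : ℕ =>
      |ξ * ((p : ℝ) / q) ^ n - round (ξ * ((p : ℝ) / q) ^ n)|) Filter.atTop = t} = K ∪ C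

end Pool.Agent.Helper96.LC
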